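import Pool.Agent.Helper80.HG.StL

/-! Project HG (MP_1bacb5_al), module TW: every logarithmico-exponential function lies in a finitely
generated differential field. -/

set_option autoImplicit false

namespace Pool.Agent.Helper98.HG

open Pool.Agent.Helper80.HG Filter Topology

private lemma gn_mono {S T : Set (ℝ → ℝ)} (h : S ⊆ T) {f : ℝ → ℝ} (hf : Gn S f) : Gn T f := by
  induction hf with
  | mem hm => exact Gn.mem (h hm)
  | const c => exact Gn.const c
  | add _ _ h1 h2 => exact Gn.add h1 h2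
  | mul _ _ h1 h2 => exact Gn.mul h1 h2
  | inv _ h1 => exact Gn.inv h1
  | congr _ he h1 => exact Gn.congr h1 he

/-- good finite sets of generators -/
private def Good (M : Set (ℝ → ℝ)) (S : Finset (ℝ → ℝ)) : Prop :=
  (S : Set (ℝ → ℝ)) ⊆ M ∧ (fun x => x) ∈ S ∧
    (∀ s ∈ S, ∃ s' : ℝ → ℝ, Gn (S : Set (ℝ → ℝ)) s' ∧ ∀ᶠ x in atTop, HasDerivAt s (s' x) x)

private lemma good_id {M : Set (ℝ → ℝ)} (hM : HM M) : Good M {fun x => x} := by
  refine ⟨?_, Finset.mem_singleton_self _, ?_⟩
  · intro s hs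
    rw [Finset.coe_singleton, Set.mem_singleton_iff] at hs
    rw [hs]
    exact hM.id
  · intro s hs
    rw [Finset.mem_singleton] at hs
    subst hs
    refine ⟨fun _ => 1, Gn.const 1, Eventually.of_forall fun x => ?_⟩
    exact hasDerivAt_id' x

open Classical in
private lemma good_union {M : Set (ℝ → ℝ)} {S T : Finset (ℝ → ℝ)} (hS : Good M S)
    (hT : Good M T) : Good M (S ∪ T) := by
  have h1 : (S : Set (ℝ → ℝ)) ⊆ ((S ∪ T : Finset (ℝ → ℝ)) : Set (ℝ → ℝ)) := by
    rw [Finset.coe_union]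
    exact Set.subset_union_left
  have h2 : (T : Set (ℝ → ℝ)) ⊆ ((S ∪ T : Finset (ℝ → ℝ)) : Set (ℝ → ℝ)) := by
    rw [Finset.coe_union]
    exact Set.subset_union_right
  refine ⟨?_, Finset.mem_union_left _ hS.2.1, ?_⟩
  · rw [Finset.coe_union]
    exact Set.union_subset hS.1 hT.1
  · intro s hs
    rcases Finset.mem_union.1 hs with hs | hs
    · obtain ⟨s', h3, h4⟩ := hS.2.2 s hs
      exact ⟨s', gn_mono h1 h3, h4⟩
    · obtain ⟨s', h3, h4⟩ := hT.2.2 s hs
      exact ⟨s', gn_mono h2 h3, h4⟩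

open Classical in
private lemma good_insert {M : Set (ℝ → ℝ)} {S : Finset (ℝ → ℝ)} (hS : Good M S) {g : ℝ → ℝ}
    (hg : g ∈ M) (hd : ∃ g' : ℝ → ℝ, Gn (insert g (S : Set (ℝ → ℝ))) g' ∧
      ∀ᶠ x in atTop, HasDerivAt g (g' x) x) : Good M (insert g S) := by
  refine ⟨?_, Finset.mem_insert_of_mem hS.2.1, ?_⟩
  · rw [Finset.coe_insert]
    exact Set.insert_subset hg hS.1
  · intro s hs
    rw [Finset.coe_insert]
    rcases Finset.mem_insert.1 hs with hs | hs
    · rw [hs]
      exact hd
    · obtain ⟨s', h3, h4⟩ := hS.2.2 s hs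
      exact ⟨s', gn_mono (Set.subset_insert _ _) h3, h4⟩

theorem hTW : StTW := by
  classical
  intro hGD M hM f hf
  have key : ∃ S : Finset (ℝ → ℝ), Good M S ∧ Gn (S : Set (ℝ → ℝ)) f := by
    induction hf with
    | const c => exact ⟨{fun x => x}, good_id hM, Gn.const c⟩
    | id =>
      refine ⟨{fun x => x}, good_id hM, Gn.mem ?_⟩
      rw [Finset.coe_singleton]
      exact Set.mem_singleton _
    | add _ _ h1 h2 =>
      obtain ⟨S, hS, hS'⟩ := h1
      obtain ⟨T, hT, hT'⟩ := h2
      refine ⟨S ∪ T, good_union hS hT, ?_⟩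
      rw [Finset.coe_union]
      exact Gn.add (gn_mono Set.subset_union_left hS') (gn_mono Set.subset_union_right hT')
    | mul _ _ h1 h2 =>
      obtain ⟨S, hS, hS'⟩ := h1
      obtain ⟨T, hT, hT'⟩ := h2
      refine ⟨S ∪ T, good_union hS hT, ?_⟩
      rw [Finset.coe_union]
      exact Gn.mul (gn_mono Set.subset_union_left hS') (gn_mono Set.subset_union_right hT')
    | inv _ h1 =>
      obtain ⟨S, hS, hS'⟩ := h1
      exact ⟨S, hS, Gn.inv hS'⟩
    | congr _ he h1 =>
      obtain ⟨S, hS, hS'⟩ := h1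
      exact ⟨S, hS, Gn.congr hS' he⟩
    | @exp f _ h1 =>
      obtain ⟨S, hS, hS'⟩ := h1
      obtain ⟨hK, hKM⟩ := hGD M hM (S : Set (ℝ → ℝ)) hS.1 hS.2.2
      have hfM : f ∈ M := hKM hS'
      obtain ⟨f', hf', hd⟩ := hK.deriv f hS'
      have hmem : Gn (insert (fun x => Real.exp (f x)) (S : Set (ℝ → ℝ)))
          (fun x => Real.exp (f x)) := Gn.mem (Set.mem_insert _ _)
      refine ⟨insert (fun x => Real.exp (f x)) S, good_insert hS (hM.exp f hfM) ?_, ?_⟩
      · refine ⟨fun x => Real.exp (f x) * f' x,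
          Gn.mul hmem (gn_mono (Set.subset_insert _ _) hf'), ?_⟩
        filter_upwards [hd] with x hx
        exact hx.exp
      · rw [Finset.coe_insert]
        exact hmem
    | @log f _ h1 =>
      obtain ⟨S, hS, hS'⟩ := h1
      obtain ⟨hK, hKM⟩ := hGD M hM (S : Set (ℝ → ℝ)) hS.1 hS.2.2
      have hfM : f ∈ M := hKM hS'
      obtain ⟨f', hf', hd⟩ := hK.deriv f hS'
      have hcase : (∀ᶠ x in atTop, f x = 0) ∨ ∀ᶠ x in atTop, f x ≠ 0 := by
        rcases hM.sign f hfM with h | h | h
        · exact Or.inl h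
        · right
          filter_upwards [h] with x hx
          exact hx.ne'
        · right
          filter_upwards [h] with x hx
          exact hx.ne
      rcases hcase with h0 | h0
      · refine ⟨S, hS, Gn.congr (Gn.const 0) ?_⟩
        filter_upwards [h0] with x hx
        rw [hx, Real.log_zero]
      · have hmem : Gn (insert (fun x => Real.log (f x)) (S : Set (ℝ → ℝ)))
            (fun x => Real.log (f x)) := Gn.mem (Set.mem_insert _ _)
        refine ⟨insert (fun x => Real.log (f x)) S, good_insert hS (hM.log f hfM) ?_, ?_⟩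
        · refine ⟨fun x => f' x * (f x)⁻¹, Gn.mul (gn_mono (Set.subset_insert _ _) hf')
            (Gn.inv (gn_mono (Set.subset_insert _ _) hS')), ?_⟩
          filter_upwards [hd, h0] with x hx hx0
          have := hx.log hx0
          rwa [div_eq_mul_inv] at this
        · rw [Finset.coe_insert]
          exact hmem
  obtain ⟨S, hS, hS'⟩ := key
  exact ⟨S, hS.1, hS.2.1, hS.2.2, hS'⟩

end Pool.Agent.Helper98.HG
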